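import Pool.Agent.GTO.Defs

/-!
# Squad GTO: ternary forms (dimension, components of products)
-/

namespace Pool.Agent.GTO.H48

open MvPolynomial

/-- ternary forms of degree `n` -/
abbrev Hs (n : ℕ) : Submodule ℝ (MvPolynomial (Fin 3) ℝ) := homogeneousSubmodule (Fin 3) ℝ n

theorem deg_iff (n : ℕ) (d : Fin 3 →₀ ℕ) :
    d ∈ (Finset.univ : Finset (Fin 3)).finsuppAntidiag n ↔ d.degree = n := by
  rw [Finset.mem_finsuppAntidiag, Finsupp.degree_eq_sum]
  constructor
  · rintro ⟨h, -⟩
    exact h
  · intro h
    exact ⟨h, Finset.subset_univ _⟩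

/-- the coefficients of a form -/
noncomputable def cf (n : ℕ) :
    Hs n →ₗ[ℝ] ((Finset.univ : Finset (Fin 3)).finsuppAntidiag n → ℝ) where
  toFun p := fun d => coeff d.1 (p : MvPolynomial (Fin 3) ℝ)
  map_add' p q := by
    funext d
    simp
  map_smul' r p := by
    funext d
    simp

theorem cf_bij (n : ℕ) : Function.Bijective (cf n) := by
  constructor
  · rw [injective_iff_map_eq_zero]
    intro p hp
    apply Subtype.ext
    ext d
    by_cases hd : d.degree = n
    · exact congrFun hp ⟨d, (deg_iff n d).2 hd⟩
    · have h1 : (p : MvPolynomial (Fin 3) ℝ).IsHomogeneous n := p.2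
      rw [h1.coeff_eq_zero hd]
      simp
  · intro f
    refine ⟨⟨∑ d : (Finset.univ : Finset (Fin 3)).finsuppAntidiag n, monomial d.1 (f d), ?_⟩, ?_⟩
    · refine IsHomogeneous.sum _ _ _ fun d _ => ?_
      exact isHomogeneous_monomial _ ((deg_iff n d.1).1 d.2)
    · funext e
      change coeff e.1 (∑ d : (Finset.univ : Finset (Fin 3)).finsuppAntidiag n,
        monomial d.1 (f d)) = f e
      rw [coeff_sum, Finset.sum_eq_single e]
      · rw [coeff_monomial, if_pos rfl]
      · intro d _ hd
        rw [coeff_monomial, if_neg]
        intro h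
        exact hd (Subtype.ext h)
      · intro h
        exact absurd (Finset.mem_univ _) h

instance fin_Hs (n : ℕ) : Module.Finite ℝ (Hs n) :=
  Module.Finite.equiv (LinearEquiv.ofBijective (cf n) (cf_bij n)).symm

theorem rank_Hs (n : ℕ) : Module.finrank ℝ (Hs n) = (n + 2).choose n := by
  rw [(LinearEquiv.ofBijective (cf n) (cf_bij n)).finrank_eq, Module.finrank_fintype_fun_eq_card,
    Fintype.card_coe, Finset.card_finsuppAntidiag_nat_eq_choose]
  have : (Finset.univ : Finset (Fin 3)).card + n - 1 = n + 2 := by
    simp
    omega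
  rw [this]

/-- the component of a product with a form -/
theorem comp_mul {k m : ℕ} {F : MvPolynomial (Fin 3) ℝ} (hF : F.IsHomogeneous k)
    (D : MvPolynomial (Fin 3) ℝ) :
    homogeneousComponent (k + m) (F * D) = F * homogeneousComponent m D := by
  conv_lhs => rw [← sum_homogeneousComponent D]
  rw [Finset.mul_sum, map_sum]
  have h1 : ∀ i, homogeneousComponent (k + m) (F * homogeneousComponent i D) =
      if m = i then F * homogeneousComponent i D else 0 := by
    intro i
    have h2 : F * homogeneousComponent i D ∈ homogeneousSubmodule (Fin 3) ℝ (k + i) :=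
      hF.mul (homogeneousComponent_isHomogeneous i D)
    rw [homogeneousComponent_of_mem h2]
    by_cases h : m = i
    · rw [if_pos h, if_pos (by rw [h])]
    · rw [if_neg h, if_neg (by omega)]
  rw [Finset.sum_congr rfl fun i _ => h1 i]
  by_cases hm : m < D.totalDegree + 1
  · rw [Finset.sum_eq_single m]
    · rw [if_pos rfl]
    · intro i _ hi
      rw [if_neg (Ne.symm hi)]
    · intro h
      exact absurd (Finset.mem_range.2 hm) h
  · rw [homogeneousComponent_eq_zero m D (by omega), mul_zero, Finset.sum_eq_zero]
    intro i hi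
    rw [if_neg]
    intro h
    exact hm (h ▸ Finset.mem_range.1 hi)

/-- the top component of a product -/
theorem comp_top (G H : MvPolynomial (Fin 3) ℝ) :
    homogeneousComponent (G.totalDegree + H.totalDegree) (G * H) =
      homogeneousComponent G.totalDegree G * homogeneousComponent H.totalDegree H := by
  conv_lhs => rw [← sum_homogeneousComponent G]
  have hG : (∑ i ∈ Finset.range (G.totalDegree + 1), homogeneousComponent i G).totalDegree =
      G.totalDegree := by rw [sum_homogeneousComponent]
  rw [hG, Finset.sum_mul, map_sum, Finset.sum_eq_single G.totalDegree]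
  · rw [comp_mul (homogeneousComponent_isHomogeneous _ _)]
  · intro i hi hne
    have h1 : i < G.totalDegree + 1 := Finset.mem_range.1 hi
    have h2 : G.totalDegree + H.totalDegree = i + (G.totalDegree + H.totalDegree - i) := by omega
    rw [h2, comp_mul (homogeneousComponent_isHomogeneous _ _),
      homogeneousComponent_eq_zero _ H (by omega), mul_zero]
  · intro h
    exact absurd (Finset.mem_range.2 (Nat.lt_succ_self _)) h

end Pool.Agent.GTO.H48
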