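import Pool.Agent.GTO.StmtsC
import Pool.Agent.Helper48_GTO.Forms

/-!
# Squad GTO, rows BZ9, BZ6: Bezout for a cubic without lines and a cubic or a conic
-/

namespace Pool.Agent.GTO.H48

open MvPolynomial

/-- the cubic form as a polynomial -/
noncomputable def Fp (c : Fin 10 → ℝ) : MvPolynomial (Fin 3) ℝ :=
  cub (fun i => C (c i)) X

noncomputable def Qp (e : Fin 6 → ℝ) : MvPolynomial (Fin 3) ℝ :=
  quad (fun i => C (e i)) X

theorem Fp_eval (c : Fin 10 → ℝ) (v : V) : eval v (Fp c) = cub c v := by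
  simp [Fp, cub]

theorem Qp_eval (e : Fin 6 → ℝ) (v : V) : eval v (Qp e) = quad e v := by
  simp [Qp, quad]

theorem mon3 (r : ℝ) {A : MvPolynomial (Fin 3) ℝ} {k : ℕ} (h : A.IsHomogeneous k) :
    (C r * A).IsHomogeneous k := h.C_mul r

theorem x1 (i : Fin 3) : (X i : MvPolynomial (Fin 3) ℝ).IsHomogeneous 1 := isHomogeneous_X ℝ i

theorem x2 (i : Fin 3) : ((X i : MvPolynomial (Fin 3) ℝ) ^ 2).IsHomogeneous 2 := by
  have := (x1 i).pow 2
  rwa [one_mul] at this

theorem x3 (i : Fin 3) : ((X i : MvPolynomial (Fin 3) ℝ) ^ 3).IsHomogeneous 3 := by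
  have := (x1 i).pow 3
  rwa [one_mul] at this

theorem Fp_hom (c : Fin 10 → ℝ) : (Fp c).IsHomogeneous 3 := by
  unfold Fp cub
  refine ((((((((( ?_ : IsHomogeneous _ 3).add ?_).add ?_).add ?_).add ?_).add ?_).add ?_).add
    ?_).add ?_).add ?_
  · exact mon3 _ (x3 0)
  · exact (mon3 _ (x2 0)).mul (x1 1)
  · exact (mon3 _ (x2 0)).mul (x1 2)
  · exact (mon3 _ (x1 0)).mul (x2 1)
  · exact ((mon3 _ (x1 0)).mul (x1 1)).mul (x1 2)
  · exact (mon3 _ (x1 0)).mul (x2 2)
  · exact mon3 _ (x3 1)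
  · exact (mon3 _ (x2 1)).mul (x1 2)
  · exact (mon3 _ (x1 1)).mul (x2 2)
  · exact mon3 _ (x3 2)

theorem Qp_hom (e : Fin 6 → ℝ) : (Qp e).IsHomogeneous 2 := by
  unfold Qp quad
  refine ((((( ?_ : IsHomogeneous _ 2).add ?_).add ?_).add ?_).add ?_).add ?_
  · exact mon3 _ (x2 0)
  · exact (mon3 _ (x1 0)).mul (x1 1)
  · exact (mon3 _ (x1 0)).mul (x1 2)
  · exact mon3 _ (x2 1)
  · exact (mon3 _ (x1 1)).mul (x1 2)
  · exact mon3 _ (x2 2)

/-- two independent zeros of a linear form -/
theorem two_zeros (w : V) : ∃ u v : V, ip w u = 0 ∧ ip w v = 0 ∧ cr u v ≠ 0 := by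
  by_cases h0 : w 0 = 0
  · by_cases h1 : w 1 = 0
    · refine ⟨![1, 0, 0], ![0, 1, 0], ?_, ?_, ?_⟩
      · simp [ip, h0]
      · simp [ip, h1]
      · intro h
        have := congrFun h 2
        simp [cr] at this
    · refine ⟨![1, 0, 0], ![0, - w 2, w 1], ?_, ?_, ?_⟩
      · simp [ip, h0]
      · simp [ip, h0]
        ring
      · intro h
        have := congrFun h 1
        simp [cr] at this
        exact h1 this
  · refine ⟨![- w 1, w 0, 0], ![- w 2, 0, w 0], ?_, ?_, ?_⟩
    · simp [ip]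
      ring
    · simp [ip]
      ring
    · intro h
      have := congrFun h 0
      simp [cr] at this
      exact h0 this

/-- a form of degree one is linear -/
theorem lin_eval {L : MvPolynomial (Fin 3) ℝ} (hL : L.IsHomogeneous 1) :
    ∃ w : V, ∀ v : V, eval v L = ip w v := by
  have h1 : L ∈ Submodule.span ℝ (Set.range (X : Fin 3 → MvPolynomial (Fin 3) ℝ)) := by
    rw [← homogeneousSubmodule_one_eq_span_X]
    exact hL
  obtain ⟨a, ha⟩ := (Submodule.mem_span_range_iff_exists_fun ℝ).1 h1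
  refine ⟨a, fun v => ?_⟩
  rw [← ha, Fin.sum_univ_three]
  simp [ip, smul_eq_C_mul]

/-- a linear factor of the cubic -/
theorem no_lin {c : Fin 10 → ℝ} (hc : NoLine c) {L Q : MvPolynomial (Fin 3) ℝ}
    (hL : L.IsHomogeneous 1) : Fp c ≠ L * Q := by
  intro h
  obtain ⟨w, hw⟩ := lin_eval hL
  obtain ⟨u, v, hu, hv, huv⟩ := two_zeros w
  obtain ⟨s, t, hst⟩ := hc u v huv
  apply hst
  rw [← Fp_eval, h, map_mul, hw]
  have : ip w (s • u + t • v) = s * ip w u + t * ip w v := by
    simp [ip]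
    ring
  rw [this, hu, hv, mul_zero, mul_zero, add_zero, zero_mul]

theorem Fp_ne {c : Fin 10 → ℝ} (hc : NoLine c) : Fp c ≠ 0 := by
  intro h
  exact no_lin hc (isHomogeneous_zero (Fin 3) ℝ 1) (Q := 0) (by rw [h, mul_zero])

theorem Fp_deg {c : Fin 10 → ℝ} (hc : NoLine c) : (Fp c).totalDegree = 3 :=
  (Fp_hom c).totalDegree (Fp_ne hc)

/-- the cubic is prime -/
theorem Fp_prime {c : Fin 10 → ℝ} (hc : NoLine c) : Prime (Fp c) := by
  rw [← UniqueFactorizationMonoid.irreducible_iff_prime]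
  have hF := Fp_ne hc
  have hcon : ∀ G : MvPolynomial (Fin 3) ℝ, G ≠ 0 → G.totalDegree = 0 → IsUnit G := by
    intro G hG h
    have h1 := (totalDegree_eq_zero_iff_eq_C).1 h
    rw [h1]
    have h2 : coeff 0 G ≠ 0 := by
      intro h3
      rw [h3, C_0] at h1
      exact hG h1
    exact (isUnit_iff_ne_zero.2 h2).map C
  constructor
  · intro h
    have h1 := Fp_deg hc
    rw [MvPolynomial.isUnit_iff_eq_C_of_isReduced] at h
    obtain ⟨r, -, hr⟩ := h
    rw [hr, totalDegree_C] at h1
    omega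
  · intro G H hGH
    have hG : G ≠ 0 := by
      intro h
      rw [h, zero_mul] at hGH
      exact hF hGH
    have hH : H ≠ 0 := by
      intro h
      rw [h, mul_zero] at hGH
      exact hF hGH
    have hd := totalDegree_mul_of_isDomain hG hH
    rw [← hGH, Fp_deg hc] at hd
    have ht := comp_top G H
    rw [← hGH, ← hd, homogeneousComponent_eq_self (Fp_hom c)] at ht
    by_cases h0 : G.totalDegree = 0
    · exact Or.inl (hcon G hG h0)
    by_cases h1 : H.totalDegree = 0
    · exact Or.inr (hcon H hH h1)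
    exfalso
    by_cases h2 : G.totalDegree = 1
    · rw [h2] at ht
      exact no_lin hc (homogeneousComponent_isHomogeneous 1 G) ht
    · have h3 : H.totalDegree = 1 := by omega
      rw [h3, mul_comm] at ht
      exact no_lin hc (homogeneousComponent_isHomogeneous 1 H) ht

/-! ### The dimension count -/

/-- evaluation at the points -/
noncomputable def ev {N : ℕ} (p : Fin N → V) : MvPolynomial (Fin 3) ℝ →ₗ[ℝ] (Fin N → ℝ) :=
  LinearMap.pi fun i => (aeval (R := ℝ) (p i)).toLinearMap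

theorem ev_apply {N : ℕ} (p : Fin N → V) (P : MvPolynomial (Fin 3) ℝ) (i : Fin N) :
    ev p P i = eval (p i) P := by
  simp [ev]

/-- the linear form orthogonal to `w` -/
noncomputable def Lp (w : V) : MvPolynomial (Fin 3) ℝ :=
  C (w 0) * X 0 + C (w 1) * X 1 + C (w 2) * X 2

theorem Lp_hom (w : V) : (Lp w).IsHomogeneous 1 := by
  unfold Lp
  exact ((mon3 _ (x1 0)).add (mon3 _ (x1 1))).add (mon3 _ (x1 2))

theorem Lp_eval (w v : V) : eval v (Lp w) = ip w v := by
  simp [Lp, ip]

theorem sep (q p : V) (h : cr q p ≠ 0) : ip (cr q (cr q p)) q = 0 ∧ ip (cr q (cr q p)) p ≠ 0 := by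
  constructor
  · simp [ip, cr]
    ring
  · have h1 : ip (cr q (cr q p)) p = - ((cr q p 0) ^ 2 + (cr q p 1) ^ 2 + (cr q p 2) ^ 2) := by
      simp [ip, cr]
      ring
    rw [h1]
    intro h2
    apply h
    have h3 : (cr q p 0) ^ 2 + (cr q p 1) ^ 2 + (cr q p 2) ^ 2 = 0 := by linarith
    have q0 := sq_nonneg (cr q p 0)
    have q1 := sq_nonneg (cr q p 1)
    have q2 := sq_nonneg (cr q p 2)
    have e0 : cr q p 0 = 0 := by
      have : (cr q p 0) ^ 2 = 0 := by linarith
      exact pow_eq_zero_iff (two_ne_zero) |>.1 this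
    have e1 : cr q p 1 = 0 := by
      have : (cr q p 1) ^ 2 = 0 := by linarith
      exact pow_eq_zero_iff (two_ne_zero) |>.1 this
    have e2 : cr q p 2 = 0 := by
      have : (cr q p 2) ^ 2 = 0 := by linarith
      exact pow_eq_zero_iff (two_ne_zero) |>.1 this
    funext i
    fin_cases i
    · exact e0
    · exact e1
    · exact e2

/-- evaluation of the forms of degree `N` at `N + 1` points is onto -/
theorem ev_surj {N : ℕ} (p : Fin (N + 1) → V) (hp : ∀ i j, i ≠ j → cr (p i) (p j) ≠ 0) :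
    Function.Surjective ((ev p).domRestrict (Hs N)) := by
  classical
  let P : Fin (N + 1) → MvPolynomial (Fin 3) ℝ := fun i =>
    ∏ j ∈ Finset.univ.erase i, Lp (cr (p j) (cr (p j) (p i)))
  have hPh : ∀ i, (P i).IsHomogeneous N := by
    intro i
    have h1 := IsHomogeneous.prod (Finset.univ.erase i)
      (fun j => Lp (cr (p j) (cr (p j) (p i)))) (fun _ => 1) (fun j _ => Lp_hom _)
    have h2 : ∑ _j ∈ Finset.univ.erase i, 1 = N := by
      rw [Finset.sum_const, Finset.card_erase_of_mem (Finset.mem_univ _), Finset.card_univ,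
        Fintype.card_fin]
      simp
    rwa [h2] at h1
  have hPi : ∀ i, eval (p i) (P i) ≠ 0 := by
    intro i
    rw [map_prod]
    refine Finset.prod_ne_zero_iff.2 fun j hj => ?_
    rw [Lp_eval]
    exact (sep (p j) (p i) (hp j i (Finset.ne_of_mem_erase hj))).2
  have hPj : ∀ i k, k ≠ i → eval (p k) (P i) = 0 := by
    intro i k hk
    rw [map_prod]
    refine Finset.prod_eq_zero (Finset.mem_erase.2 ⟨hk, Finset.mem_univ k⟩) ?_
    rw [Lp_eval]
    exact (sep (p k) (p i) (hp k i hk)).1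
  intro f
  refine ⟨⟨∑ i, C (f i / eval (p i) (P i)) * P i, ?_⟩, ?_⟩
  · exact IsHomogeneous.sum _ _ _ fun i _ => mon3 _ (hPh i)
  · funext k
    change ev p (∑ i, C (f i / eval (p i) (P i)) * P i) k = f k
    rw [ev_apply, map_sum, Finset.sum_eq_single k]
    · rw [map_mul, eval_C, div_mul_cancel₀ _ (hPi k)]
    · intro i _ hi
      rw [map_mul, hPj i k (Ne.symm hi), mul_zero]
    · intro h
      exact absurd (Finset.mem_univ _) h

/-- Bezout, the general form -/
theorem bez_gen {c : Fin 10 → ℝ} (hc : NoLine c) {E : MvPolynomial (Fin 3) ℝ} {e m : ℕ}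
    (hE : E.IsHomogeneous e) (hnd : ¬ Fp c ∣ E) (p : Fin (m + e + 3 + 1) → V)
    (hp : ∀ i j, i ≠ j → cr (p i) (p j) ≠ 0)
    (hz : ∀ i, cub c (p i) = 0 ∧ eval (p i) E = 0) :
    Module.finrank ℝ (Hs (m + 3)) + Module.finrank ℝ (Hs (m + e)) + (m + e + 3 + 1) ≤
      Module.finrank ℝ (Hs (m + e + 3)) + Module.finrank ℝ (Hs m) := by
  have hF := Fp_ne hc
  have hFp := Fp_prime hc
  have hFh := Fp_hom c
  obtain ⟨F, hFd⟩ : ∃ F, F = Fp c := ⟨_, rfl⟩
  rw [← hFd] at hF hFp hFh hnd
  have hzF : ∀ i, eval (p i) F = 0 := fun i => by rw [hFd, Fp_eval, (hz i).1]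
  -- the two maps
  let Φ : (Hs (m + 3)) × (Hs (m + e)) →ₗ[ℝ] Hs (m + e + 3) :=
    { toFun := fun x => ⟨E * (x.1 : MvPolynomial (Fin 3) ℝ) + F * (x.2 : MvPolynomial (Fin 3) ℝ),
        by
          have h1 : (E * (x.1 : MvPolynomial (Fin 3) ℝ)).IsHomogeneous (e + (m + 3)) :=
            hE.mul x.1.2
          have h2 : (F * (x.2 : MvPolynomial (Fin 3) ℝ)).IsHomogeneous (3 + (m + e)) :=
            hFh.mul x.2.2
          have e1 : e + (m + 3) = m + e + 3 := by omega
          have e2 : 3 + (m + e) = m + e + 3 := by omega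
          rw [e1] at h1
          rw [e2] at h2
          exact h1.add h2⟩
      map_add' := fun x y => Subtype.ext (by
        simp
        ring)
      map_smul' := fun r x => Subtype.ext (by
        simp [smul_eq_C_mul]
        ring) }
  let Ψ : Hs m →ₗ[ℝ] (Hs (m + 3)) × (Hs (m + e)) :=
    { toFun := fun x => (⟨F * (x : MvPolynomial (Fin 3) ℝ), by
          have h1 : (F * (x : MvPolynomial (Fin 3) ℝ)).IsHomogeneous (3 + m) := hFh.mul x.2
          rwa [add_comm] at h1⟩, ⟨- (E * (x : MvPolynomial (Fin 3) ℝ)), by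
          have h1 : (E * (x : MvPolynomial (Fin 3) ℝ)).IsHomogeneous (e + m) := hE.mul x.2
          rw [add_comm] at h1
          exact h1.neg⟩)
      map_add' := fun x y => by
        refine Prod.ext (Subtype.ext ?_) (Subtype.ext ?_)
        · simp
          ring
        · simp
          ring
      map_smul' := fun r x => by
        refine Prod.ext (Subtype.ext ?_) (Subtype.ext ?_)
        · simp
        · simp }
  have hker : LinearMap.ker Φ ≤ LinearMap.range Ψ := by
    rintro ⟨⟨A, hA⟩, ⟨B, hB⟩⟩ hx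
    have h1 : E * A + F * B = 0 := congrArg Subtype.val (LinearMap.mem_ker.1 hx)
    have h2 : F ∣ E * A := ⟨-B, by linear_combination h1⟩
    have h3 : F ∣ A := (hFp.dvd_or_dvd h2).resolve_left hnd
    obtain ⟨D, hD⟩ := h3
    have h4 : A = F * homogeneousComponent m D := by
      rw [← comp_mul hFh, ← hD, add_comm 3 m]
      exact (homogeneousComponent_eq_self hA).symm
    have h5 : B = - (E * homogeneousComponent m D) := by
      apply mul_left_cancel₀ hF
      linear_combination h1 - E * h4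
    refine ⟨⟨homogeneousComponent m D, homogeneousComponent_isHomogeneous m D⟩, ?_⟩
    refine Prod.ext (Subtype.ext ?_) (Subtype.ext ?_)
    · exact h4.symm
    · exact h5.symm
  -- the evaluation
  obtain ⟨evd, hevd⟩ : ∃ evd, evd = (ev p).domRestrict (Hs (m + e + 3)) := ⟨_, rfl⟩
  have hsurj : Function.Surjective evd := by
    rw [hevd]
    exact ev_surj p hp
  have hle : LinearMap.range Φ ≤ LinearMap.ker evd := by
    rintro _ ⟨x, rfl⟩
    rw [LinearMap.mem_ker, hevd]
    funext i
    change ev p (E * (x.1 : MvPolynomial (Fin 3) ℝ) + F * (x.2 : MvPolynomial (Fin 3) ℝ)) i = 0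
    rw [ev_apply, map_add, map_mul, map_mul, (hz i).2, hzF i, zero_mul, zero_mul, add_zero]
  -- the count
  have k1 := LinearMap.finrank_range_add_finrank_ker Φ
  have k2 := LinearMap.finrank_range_add_finrank_ker evd
  have k3 : Module.finrank ℝ (LinearMap.range evd) = m + e + 3 + 1 := by
    rw [LinearMap.range_eq_top.2 hsurj, finrank_top, Module.finrank_fin_fun]
  have k4 := Submodule.finrank_mono hle
  have k5 := Submodule.finrank_mono hker
  have k6 := LinearMap.finrank_range_le Ψ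
  rw [Module.finrank_prod] at k1
  omega

/-- the coefficients of a cubic form -/
theorem cub_zero {c : Fin 10 → ℝ} (h : ∀ v, cub c v = 0) : c = 0 := by
  have a1 := h ![1, 0, 0]
  have a2 := h ![0, 1, 0]
  have a3 := h ![0, 0, 1]
  have a4 := h ![1, 1, 0]
  have a5 := h ![1, -1, 0]
  have a6 := h ![1, 0, 1]
  have a7 := h ![1, 0, -1]
  have a8 := h ![0, 1, 1]
  have a9 := h ![0, 1, -1]
  have a10 := h ![1, 1, 1]
  simp [cub] at a1 a2 a3 a4 a5 a6 a7 a8 a9 a10
  funext i
  fin_cases i
  all_goals simp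
  all_goals linarith

theorem quad_zero {e : Fin 6 → ℝ} (h : ∀ v, quad e v = 0) : e = 0 := by
  have a1 := h ![1, 0, 0]
  have a2 := h ![0, 1, 0]
  have a3 := h ![0, 0, 1]
  have a4 := h ![1, 1, 0]
  have a6 := h ![1, 0, 1]
  have a8 := h ![0, 1, 1]
  simp [quad] at a1 a2 a3 a4 a6 a8
  funext i
  fin_cases i
  all_goals simp
  all_goals linarith

theorem bz9 : Bz9Stmt := by
  intro c c' p hc hM hp
  by_contra hcon
  push Not at hcon
  have hnd : ¬ Fp c ∣ Fp c' := by
    rintro ⟨H, hH⟩
    have h0 : Fp c' ≠ 0 := by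
      intro h
      apply hM
      refine ⟨0, ?_⟩
      rw [zero_smul]
      apply cub_zero
      intro v
      rw [← Fp_eval, h, map_zero]
    have hH0 : H ≠ 0 := by
      intro h
      rw [h, mul_zero] at hH
      exact h0 hH
    have h1 := totalDegree_mul_of_isDomain (Fp_ne hc) hH0
    rw [← hH, Fp_deg hc, (Fp_hom c').totalDegree h0] at h1
    have h2 : H = C (coeff 0 H) := (totalDegree_eq_zero_iff_eq_C).1 (by omega)
    apply hM
    refine ⟨coeff 0 H, ?_⟩
    have h3 : c' - coeff 0 H • c = 0 := by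
      apply cub_zero
      intro v
      have h4 : cub c' v = cub c v * coeff 0 H := by
        rw [← Fp_eval, hH, map_mul, Fp_eval]
        congr 1
        conv_lhs => rw [h2]
        exact eval_C _
      have h5 : cub (c' - coeff 0 H • c) v = cub c' v - coeff 0 H * cub c v := by
        simp [cub]
        ring
      rw [h5, h4]
      ring
    exact sub_eq_zero.1 h3
  have h := bez_gen (m := 3) (e := 3) hc (Fp_hom c') hnd p hp
    (fun i => ⟨(hcon i).1, by rw [Fp_eval]; exact (hcon i).2⟩)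
  rw [rank_Hs, rank_Hs, rank_Hs] at h
  revert h
  decide

theorem bz6 : Bz6Stmt := by
  intro c e p hc he hp
  by_contra hcon
  push Not at hcon
  have hnd : ¬ Fp c ∣ Qp e := by
    rintro ⟨H, hH⟩
    have h0 : Qp e ≠ 0 := by
      intro h
      apply he
      apply quad_zero
      intro v
      rw [← Qp_eval, h, map_zero]
    have hH0 : H ≠ 0 := by
      intro h
      rw [h, mul_zero] at hH
      exact h0 hH
    have h1 := totalDegree_mul_of_isDomain (Fp_ne hc) hH0
    rw [← hH, Fp_deg hc, (Qp_hom e).totalDegree h0] at h1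
    omega
  have h := bez_gen (m := 1) (e := 2) hc (Qp_hom e) hnd p hp
    (fun i => ⟨(hcon i).1, by rw [Qp_eval]; exact (hcon i).2⟩)
  rw [rank_Hs, rank_Hs, rank_Hs, rank_Hs] at h
  revert h
  decide

end Pool.Agent.GTO.H48
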